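import Pool.Agent.Q123.KB.Kod3

/-!
# The degree of a Kodiyalam polynomial may depend on the field

Let `J` be Reisner's ideal (the Stanley-Reisner ideal of the triangulation of the projective plane
with six vertices) in the variables `z_1,…,z_6`, and `I = (x², y²) + x y J`, a monomial ideal in eight
variables. Then `I ^ h = (x², y²) ^ h + x y (x², y²) ^ (h - 1) J`, and the fifth Betti number
`β_5(I ^ h) = dim Tor_5(I ^ h, K)` is zero for all `h ≥ 1` if `2 ≠ 0` in `K`, and equal to `h` for all `h ≥ 1`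
if `K` is the field with two elements. So the fifth Kodiyalam polynomial of `I` is `0` over `ℚ` and
`t` over the field with two elements: its degree depends on the field.

`monIdeal K A` is the ideal of `K[x_1,…,x_n]` generated by the monomials with exponent in `A`, and
`betti J i` is `dim_K Tor_i(J, K)`, the sum over all multidegrees of the dimensions of the components
of the Koszul homology (defined in `Pool.Agent.Q123.KB.Defs`).
-/

set_option autoImplicit false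

open Pool.Agent.Q123.KB

namespace Pool.Agent.Results.MP_76aa63_al.DegreeDependsOnField

/-- `P` is the `i`-th Kodiyalam polynomial over `K` of the ideal generated by the monomials with
exponents in `A`: the `i`-th Betti number of the `h`-th power is (finite and) equal to `P(h)` for all
large `h`. -/
def IsKodiyalam (K : Type) [Field K] {n : ℕ} (A : Set (Fin n →₀ ℕ)) (i : ℕ)
    (P : Polynomial ℚ) : Prop :=
  ∃ h₀ : ℕ, ∀ h, h₀ ≤ h → ∃ m : ℕ, betti (monIdeal K A ^ h) i = (m : ℕ∞) ∧ P.eval (h : ℚ) = m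

theorem unique {K : Type} [Field K] {n : ℕ} {A : Set (Fin n →₀ ℕ)} {i : ℕ} {P Q : Polynomial ℚ}
    (hP : IsKodiyalam K A i P) (hQ : IsKodiyalam K A i Q) : P = Q := by
  obtain ⟨h₁, hP⟩ := hP
  obtain ⟨h₂, hQ⟩ := hQ
  refine Polynomial.eq_of_infinite_eval_eq P Q ?_
  refine Set.Infinite.mono (s := Set.range fun k : ℕ => ((max h₁ h₂ + k : ℕ) : ℚ)) ?_
    (Set.infinite_range_of_injective fun k k' hk => ?_)
  · rintro _ ⟨k, rfl⟩
    obtain ⟨m, hm1, hm2⟩ := hP (max h₁ h₂ + k) (le_trans (le_max_left _ _) (Nat.le_add_right _ _))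
    obtain ⟨m', hm3, hm4⟩ := hQ (max h₁ h₂ + k) (le_trans (le_max_right _ _) (Nat.le_add_right _ _))
    change P.eval ((max h₁ h₂ + k : ℕ) : ℚ) = Q.eval ((max h₁ h₂ + k : ℕ) : ℚ)
    rw [hm2, hm4]
    rw [hm1] at hm3
    have : m = m' := by exact_mod_cast hm3
    rw [this]
  · have h1 : (max h₁ h₂ + k : ℕ) = (max h₁ h₂ + k' : ℕ) := by exact_mod_cast hk
    omega

/-- There are a monomial ideal (in eight variables, given by the finite set `A` of the exponents of
its generators) and an index `i` such that `β_i(I ^ h) = 0` for all `h ≥ 1` over every field in which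
`2 ≠ 0`, and `β_i(I ^ h) = h` for all `h ≥ 1` over the field with two elements. So the `i`-th Kodiyalam
polynomial of `I` is `0` over `ℚ` and `t` over the field with two elements, and their degrees are
different. -/
theorem result :
    ∃ (A : Finset (Fin 8 →₀ ℕ)) (i : ℕ),
      (∀ (K : Type) [Field K], (2 : K) ≠ 0 → ∀ h : ℕ, 1 ≤ h →
        betti (monIdeal K (A : Set (Fin 8 →₀ ℕ)) ^ h) i = 0) ∧
      (∀ h : ℕ, 1 ≤ h → betti (monIdeal (ZMod 2) (A : Set (Fin 8 →₀ ℕ)) ^ h) i = h) ∧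
      (∀ P : Polynomial ℚ, IsKodiyalam ℚ (A : Set (Fin 8 →₀ ℕ)) i P ↔ P = 0) ∧
      (∀ Q : Polynomial ℚ, IsKodiyalam (ZMod 2) (A : Set (Fin 8 →₀ ℕ)) i Q ↔ Q = Polynomial.X) ∧
      ∀ P Q : Polynomial ℚ, IsKodiyalam ℚ (A : Set (Fin 8 →₀ ℕ)) i P →
        IsKodiyalam (ZMod 2) (A : Set (Fin 8 →₀ ℕ)) i Q → P.degree ≠ Q.degree := by
  have h0 : ∀ (K : Type) [Field K], (2 : K) ≠ 0 → ∀ h : ℕ, 1 ≤ h →
      betti (monIdeal K (RP.gens : Set (Fin 8 →₀ ℕ)) ^ h) 5 = 0 :=
    fun K _ h2 h hh => RP.betti_zero h2 hh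
  have h1 : ∀ h : ℕ, 1 ≤ h → betti (monIdeal ℚ (RP.gens : Set (Fin 8 →₀ ℕ)) ^ h) 5 = 0 :=
    h0 ℚ two_ne_zero
  have h2 : ∀ h : ℕ, 1 ≤ h → betti (monIdeal (ZMod 2) (RP.gens : Set (Fin 8 →₀ ℕ)) ^ h) 5 = h :=
    fun h hh => RP.betti_two hh
  have k1 : IsKodiyalam ℚ (RP.gens : Set (Fin 8 →₀ ℕ)) 5 0 :=
    ⟨1, fun h hh => ⟨0, by rw [h1 h hh]; rfl, by simp⟩⟩
  have k2 : IsKodiyalam (ZMod 2) (RP.gens : Set (Fin 8 →₀ ℕ)) 5 Polynomial.X :=
    ⟨1, fun h hh => ⟨h, h2 h hh, by simp⟩⟩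
  have k3 : ∀ P : Polynomial ℚ, IsKodiyalam ℚ (RP.gens : Set (Fin 8 →₀ ℕ)) 5 P ↔ P = 0 :=
    fun P => ⟨fun hP => unique hP k1, fun hP => by rw [hP]; exact k1⟩
  have k4 : ∀ P : Polynomial ℚ, IsKodiyalam (ZMod 2) (RP.gens : Set (Fin 8 →₀ ℕ)) 5 P ↔
      P = Polynomial.X :=
    fun P => ⟨fun hP => unique hP k2, fun hP => by rw [hP]; exact k2⟩
  refine ⟨RP.gens, 5, h0, h2, k3, k4, fun P Q hP hQ => ?_⟩
  rw [(k3 P).1 hP, (k4 Q).1 hQ, Polynomial.degree_zero, Polynomial.degree_X]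
  simp

end Pool.Agent.Results.MP_76aa63_al.DegreeDependsOnField
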